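import Pool.Agent.H40.AG.Base
import Pool.Agent.H67.AG.T7

/-!
ABSOLUTE GAP (`MP_c59857_nt`): row GGP, most configurations are good.
-/

set_option autoImplicit false
set_option linter.unusedSectionVars false

open MeasureTheory ProbabilityTheory Filter Topology Finset
open scoped Nat ENNReal

namespace Pool.Agent.H23.AG

open Pool.Agent.H67.AG Pool.Agent.H40.AG

section basic

variable (c : CtxE)

theorem dt_meas (i : Fin c.k) : Measurable (c.Dt i) :=
  c.Dm.comp (c.T.measurable.iterate _)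

theorem dt_val (i : Fin c.k) (x : c.X) : c.Dt i x = 1 ∨ c.Dt i x = -1 := c.Dv _

theorem dl_meas (i : Fin c.k) : Measurable (dl c.D1 c.D2 i) := by
  classical
  have h1 : Measurable (c.D1 i) := (dt_meas c i).comp measurable_fst
  have h2 : Measurable (c.D2 i) := (dt_meas c i).comp measurable_snd
  have hs : MeasurableSet {q | c.D1 i q = c.D2 i q} := measurableSet_eq_fun h1 h2
  unfold dl
  exact Measurable.ite hs measurable_const measurable_const

theorem dl_bd (i : Fin c.k) (q : c.X × c.X) : |dl c.D1 c.D2 i q| ≤ 1 := by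
  unfold dl
  split_ifs <;> simp

theorem dL_meas (W L : ℕ) : Measurable (c.dL W L) := by
  unfold CtxE.dL
  exact Finset.measurable_sum _ fun i _ => av_meas _ W L (dl_meas c i)

theorem dL_bd (W L : ℕ) (q : c.X × c.X) : |c.dL W L q| ≤ c.k := by
  unfold CtxE.dL
  refine (Finset.abs_sum_le_sum_abs _ _).trans ?_
  refine (Finset.sum_le_sum fun i _ => av_bdd _ W L zero_le_one (dl_bd c i) q).trans ?_
  simp

theorem MR_meas (Z : SA c.X) : Measurable (c.MR Z) := by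
  unfold CtxE.MR Mis
  exact Finset.measurable_sum _ fun i _ =>
    (stronglyMeasurable_condExp.mono (rt_le (TT c.T))).measurable

theorem MR_int (Z : SA c.X) : Integrable (c.MR Z) (JJ c.μ Z) := by
  unfold CtxE.MR Mis
  exact integrable_finsetSum _ fun i _ => integrable_condExp

theorem dM_int (Z : SA c.X) (W L : ℕ) :
    Integrable (fun q => |c.dL W L q - c.MR Z q|) (JJ c.μ Z) :=
  ((bint (dL_meas c W L) ⟨c.k, dL_bd c W L⟩).sub (MR_int c Z)).abs

theorem Xg_meas : MeasurableSet c.Xg := by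
  have he : Measurable c.e := c.em.mono (rt_le c.T) le_rfl
  have : c.Xg = c.Y ∩ {x | c.e x ≤ 4 * κ₀} := rfl
  rw [this]
  exact c.Ym.inter (measurableSet_le he measurable_const)

theorem Rel_meas (Z : SA c.X) : MeasurableSet (c.Rel Z) := by
  have : c.Rel Z = (Prod.fst ⁻¹' c.Xg) ∩ ((Prod.snd ⁻¹' c.Xg) ∩ {q | c.MR Z q ≤ 1 / 2}) := rfl
  rw [this]
  exact (measurable_fst (Xg_meas c)).inter ((measurable_snd (Xg_meas c)).inter
    (measurableSet_le (MR_meas c Z) measurable_const))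

theorem mk_bd (Z : SA c.X) (W L : ℕ) {θ' ε : ℝ} (hε : 0 < ε)
    (h : ∫ q, |c.dL W L q - c.MR Z q| ∂(JJ c.μ Z) ≤ θ') :
    (JJ c.μ Z).real {q | ε < |c.dL W L q - c.MR Z q|} ≤ θ' / ε := by
  have h1 : (JJ c.μ Z).real {q | ε < |c.dL W L q - c.MR Z q|} ≤
      (JJ c.μ Z).real {q | ε ≤ |c.dL W L q - c.MR Z q|} :=
    measureReal_mono fun q hq => by
      simp only [Set.mem_ofPred_eq] at hq ⊢
      exact hq.le
  have h2 := mul_meas_ge_le_integral_of_nonneg (μ := JJ c.μ Z)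
    (f := fun q => |c.dL W L q - c.MR Z q|) (ae_of_all _ fun q => abs_nonneg _)
    (dM_int c Z W L) ε
  rw [le_div_iff₀ hε]
  calc _ ≤ (JJ c.μ Z).real {q | ε ≤ |c.dL W L q - c.MR Z q|} * ε :=
        mul_le_mul_of_nonneg_right h1 hε.le
    _ ≤ θ' := by rw [mul_comm]; exact h2.trans h

/-- the mismatch density in terms of the word -/
noncomputable def dw (W L : ℕ) (x : c.X) (v : Fin c.k → Fin L → Bool) : ℝ :=
  ∑ i, (∑ l : Fin L, if c.wd W L x i l = v i l then (0 : ℝ) else 1) / L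

theorem dL_eq_dw (W L : ℕ) (x x' : c.X) : c.dL W L (x, x') = dw c W L x (c.wd W L x') := by
  unfold CtxE.dL dw Av
  refine Finset.sum_congr rfl fun i _ => ?_
  congr 1
  rw [← Fin.sum_univ_eq_sum_range]
  refine Finset.sum_congr rfl fun l _ => ?_
  rw [TT_it]
  unfold dl
  have e1 : c.D1 i (c.T^[W * (l : ℕ)] x, c.T^[W * (l : ℕ)] x') = c.Dt i (c.T^[W * (l : ℕ)] x) :=
    rfl
  have e2 : c.D2 i (c.T^[W * (l : ℕ)] x, c.T^[W * (l : ℕ)] x') = c.Dt i (c.T^[W * (l : ℕ)] x') :=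
    rfl
  simp only [e1, e2]
  have hiff : c.Dt i (c.T^[W * (l : ℕ)] x) = c.Dt i (c.T^[W * (l : ℕ)] x') ↔
      c.wd W L x i l = c.wd W L x' i l := by
    unfold CtxE.wd
    rcases dt_val c i (c.T^[W * (l : ℕ)] x) with h1 | h1 <;>
      rcases dt_val c i (c.T^[W * (l : ℕ)] x') with h2 | h2 <;> rw [h1, h2] <;> norm_num
  by_cases h : c.Dt i (c.T^[W * (l : ℕ)] x) = c.Dt i (c.T^[W * (l : ℕ)] x')
  · rw [if_pos h, if_pos (hiff.1 h)]
  · rw [if_neg h, if_neg (fun h' => h (hiff.2 h'))]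

theorem wd_meas (W L : ℕ) : Measurable (c.wd W L) := by
  classical
  refine measurable_pi_iff.2 fun i => measurable_pi_iff.2 fun l => ?_
  have hs : MeasurableSet {x : c.X | c.Dt i (c.T^[W * (l : ℕ)] x) = 1} :=
    ((dt_meas c i).comp (c.T.measurable.iterate _)) (measurableSet_singleton 1)
  refine measurable_to_bool ?_
  have : (fun x => c.wd W L x i l) ⁻¹' {true} = {x : c.X | c.Dt i (c.T^[W * (l : ℕ)] x) = 1} := by
    ext x
    simp [CtxE.wd]
  rw [this]
  exact hs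

theorem dw_meas (W L : ℕ) (v : Fin c.k → Fin L → Bool) : Measurable fun x => dw c W L x v := by
  unfold dw
  refine Finset.measurable_sum _ fun i _ => Measurable.div_const ?_ _
  refine Finset.measurable_sum _ fun l _ => ?_
  have h1 : Measurable fun x => c.wd W L x i l :=
    (measurable_pi_apply l).comp ((measurable_pi_apply i).comp (wd_meas c W L))
  exact Measurable.ite (h1 (measurableSet_singleton (v i l))) measurable_const measurable_const

end basic

theorem pf_GGP (hdrm : T_DRM) (hpnl : Pool.Agent.H40.AG.T_PNL) (hpxl : Pool.Agent.H40.AG.T_PXL)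
    (hmem : Pool.Agent.H40.AG.T_MEM) (hrpc : Pool.Agent.H40.AG.T_RPC)
    (hnco : Pool.Agent.H40.AG.T_NCO) (hdg : Pool.Agent.H40.AG.T_DGJ) : T_GGP := by
  intro c Z c₀ X1 B W L n R _ θ θ' θ'' hZ hRZ hc0 hc1 hX1 hX1g hmass hW hL hB hsym hdM hfst hsnd
    hrep
  classical
  have hB' : MeasurableSet B := (set_inv_iff c.T W B).1 hB |>.1
  have hX1' : MeasurableSet X1 := rt_le c.T X1 hX1
  have hX1Z : MeasurableSet[Z.1] X1 := hRZ X1 hX1
  have hm1 : (0 : ℝ) < m1 := by unfold m1; norm_num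
  have hm1' : m1 < 1 / 2 := by unfold m1; norm_num
  have hθ0 : 0 ≤ θ := measureReal_nonneg.trans hsym
  have hθ'0 : 0 ≤ θ' := (integral_nonneg fun q => abs_nonneg _).trans hdM
  -- the set `B` minus `X1`
  have hBX : c.μ.real (B \ X1) ≤ θ :=
    (measureReal_mono (fun x hx => Or.inr hx)).trans hsym
  have hstart : ∀ (R' : Measure (c.X × c.X)) [IsProbabilityMeasure R'],
      MeasurePreserving Prod.fst R' c.μ → MeasurePreserving Prod.snd R' c.μ →
      (PX c.μ Z (n + 1) R').real {q | q.1.1 ∈ B \ X1} ≤ θ := by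
    intro R' _ hf hs
    have hp := (hpxl c.X c.μ Z (n + 1) R' hf hs).2.1
    have h2 : MeasurePreserving (fun q : XX c.X (n + 1) => q.1.1) (PX c.μ Z (n + 1) R') c.μ :=
      hf.comp hp
    have h3 := h2.measureReal_preimage (hB'.diff hX1').nullMeasurableSet
    exact (le_of_eq h3).trans hBX
  -- the dichotomy for pairs of references
  have hS2 : (PX c.μ Z (n + 1) R).real {q | q.1.1 ∈ B ∧ ∃ a b, a ≠ b ∧
      ¬ (|c.dL W L (q.2.1 a, q.2.1 b) - c.MR Z (q.2.1 a, q.2.1 b)| ≤ 1 / 100 ∧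
      (c.MR Z (q.2.1 a, q.2.1 b) ≤ m1 ∨ 1 - m1 ≤ c.MR Z (q.2.1 a, q.2.1 b)))} ≤
      θ + 100 * ((n : ℝ) + 1) ^ 2 * θ' := by
    have hpair : ∀ a b : Fin (n + 1), a ≠ b →
        (PX c.μ Z (n + 1) R).real {q | 1 / 100 <
          |c.dL W L (q.2.1 a, q.2.1 b) - c.MR Z (q.2.1 a, q.2.1 b)|} ≤ 100 * θ' := by
      intro a b hab
      have h1 := (hpxl c.X c.μ Z (n + 1) R hfst hsnd).2.2.1
      have h2 := (hpnl c.X c.μ Z (n + 1)).2.2.2.2 a b hab
      have h3 : MeasurePreserving (fun q : XX c.X (n + 1) => (q.2.1 a, q.2.1 b))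
        (PX c.μ Z (n + 1) R) (JJ c.μ Z) := h2.comp h1
      have hms : MeasurableSet {q : c.X × c.X | 1 / 100 < |c.dL W L q - c.MR Z q|} :=
        measurableSet_lt measurable_const (((dL_meas c W L).sub (MR_meas c Z)).abs)
      have h4 := h3.measureReal_preimage hms.nullMeasurableSet
      have h5 := mk_bd c Z W L (ε := 1 / 100) (by norm_num) hdM
      have h6 : θ' / (1 / 100) = 100 * θ' := by ring
      rw [h6] at h5
      exact (le_of_eq h4).trans h5
    have hae : ∀ᵐ q ∂(PX c.μ Z (n + 1) R), ∀ a b : Fin (n + 1), a ≠ b → q.1.1 ∈ X1 →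
        (c.MR Z (q.2.1 a, q.2.1 b) ≤ m1 ∨ 1 - m1 ≤ c.MR Z (q.2.1 a, q.2.1 b)) := by
      rw [ae_all_iff]
      intro a
      rw [ae_all_iff]
      intro b
      by_cases hab : a = b
      · exact ae_of_all _ fun q h => absurd hab h
      have h1 := (hpxl c.X c.μ Z (n + 1) R hfst hsnd).2.2.1
      have h2 := (hpnl c.X c.μ Z (n + 1)).2.2.2.2 a b hab
      have h3 : MeasurePreserving (fun q : XX c.X (n + 1) => (q.2.1 a, q.2.1 b))
        (PX c.μ Z (n + 1) R) (JJ c.μ Z) := h2.comp h1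
      have h4 := h3.quasiMeasurePreserving.ae (hdrm c Z hZ)
      have h5 := ((hmem c.X c.μ Z (n + 1) X1 hX1Z).2 R hfst hsnd).1
      filter_upwards [h4, h5 a, h5 b] with q h4 h5 h6 _ hq
      exact (h4 (hX1g (h5.1 hq)) (hX1g (h6.1 hq))).2
    set N : Set (XX c.X (n + 1)) := {q | ¬ ∀ a b : Fin (n + 1), a ≠ b → q.1.1 ∈ X1 →
        (c.MR Z (q.2.1 a, q.2.1 b) ≤ m1 ∨ 1 - m1 ≤ c.MR Z (q.2.1 a, q.2.1 b))} with hN
    have hN0 : (PX c.μ Z (n + 1) R).real N = 0 := by
      have : (PX c.μ Z (n + 1) R) N = 0 := ae_iff.1 hae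
      rw [Measure.real, this]
      rfl
    have hsub : {q : XX c.X (n + 1) | q.1.1 ∈ B ∧ ∃ a b, a ≠ b ∧
      ¬ (|c.dL W L (q.2.1 a, q.2.1 b) - c.MR Z (q.2.1 a, q.2.1 b)| ≤ 1 / 100 ∧
      (c.MR Z (q.2.1 a, q.2.1 b) ≤ m1 ∨ 1 - m1 ≤ c.MR Z (q.2.1 a, q.2.1 b)))} ⊆
      ({q | q.1.1 ∈ B \ X1} ∪ N) ∪ ⋃ ab ∈ (univ : Finset (Fin (n + 1) × Fin (n + 1))).filter
        (fun ab => ab.1 ≠ ab.2),
        {q : XX c.X (n + 1) | 1 / 100 <
          |c.dL W L (q.2.1 ab.1, q.2.1 ab.2) - c.MR Z (q.2.1 ab.1, q.2.1 ab.2)|} := by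
      rintro q ⟨hqB, a, b, hab, hq⟩
      by_cases hqX : q.1.1 ∈ X1
      · by_cases hqN : q ∈ N
        · exact Or.inl (Or.inr hqN)
        · right
          have h1 : (c.MR Z (q.2.1 a, q.2.1 b) ≤ m1 ∨ 1 - m1 ≤ c.MR Z (q.2.1 a, q.2.1 b)) := by
            have := not_not.1 hqN
            exact this a b hab hqX
          have h2 : ¬ |c.dL W L (q.2.1 a, q.2.1 b) - c.MR Z (q.2.1 a, q.2.1 b)| ≤ 1 / 100 :=
            fun h => hq ⟨h, h1⟩
          simp only [Set.mem_iUnion]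
          exact ⟨(a, b), Finset.mem_filter.2 ⟨Finset.mem_univ _, hab⟩, not_le.1 h2⟩
      · exact Or.inl (Or.inl ⟨hqB, hqX⟩)
    refine (measureReal_mono hsub).trans ?_
    refine (measureReal_union_le _ _).trans ?_
    refine add_le_add ?_ ?_
    · refine (measureReal_union_le _ _).trans ?_
      rw [hN0, add_zero]
      exact hstart R hfst hsnd
    · refine (measureReal_biUnion_finset_le _ _).trans ?_
      refine (Finset.sum_le_sum (g := fun _ => 100 * θ') fun ab hab => ?_).trans ?_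
      · exact hpair ab.1 ab.2 (Finset.mem_filter.1 hab).2
      · rw [Finset.sum_const, nsmul_eq_mul]
        have hcard : (((univ : Finset (Fin (n + 1) × Fin (n + 1))).filter
            (fun ab => ab.1 ≠ ab.2)).card : ℝ) ≤ ((n : ℝ) + 1) ^ 2 := by
          have h1 := Finset.card_filter_le (univ : Finset (Fin (n + 1) × Fin (n + 1)))
            (fun ab => ab.1 ≠ ab.2)
          have h2 : (univ : Finset (Fin (n + 1) × Fin (n + 1))).card = (n + 1) ^ 2 := by
            rw [Finset.card_univ, Fintype.card_prod, Fintype.card_fin]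
            ring
          rw [h2] at h1
          exact_mod_cast h1
        nlinarith [mul_le_mul_of_nonneg_right hcard hθ'0]
  -- the event of the last point, replaced
  have hdgp := hdg c.X c.μ Z
  have : IsProbabilityMeasure (dg c.μ) := hdgp.1
  have hS1dg : (PX c.μ Z (n + 1) (dg c.μ)).real {q | q.1.1 ∈ B ∧
      ∀ b, 2 * m1 < c.dL W L (q.2.1 b, q.2.2)} ≤
      θ + (1 - c₀) ^ (n + 1) + ((n : ℝ) + 1) * (θ' / m1) := by
    have hdd : ∀ᵐ q ∂(dg c.μ), q.1 = q.2 := by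
      unfold dg
      have hd : Measurable fun z : c.X => (z, z) := by fun_prop
      have hms : MeasurableSet {q : c.X × c.X | q.1 = q.2} := measurableSet_eq_fun
        measurable_fst measurable_snd
      rw [ae_map_iff hd.aemeasurable hms]
      exact ae_of_all _ fun z => rfl
    have hx := hpxl c.X c.μ Z (n + 1) (dg c.μ) hdgp.2.1 hdgp.2.2.1
    have hae1 : ∀ᵐ q ∂(PX c.μ Z (n + 1) (dg c.μ)), q.1.1 = q.1.2 :=
      hx.2.1.quasiMeasurePreserving.ae hdd
    have hae2 := ((hmem c.X c.μ Z (n + 1) X1 hX1Z).2 (dg c.μ) hdgp.2.1 hdgp.2.2.1).2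
    have hlaw : ∀ b, MeasurePreserving (fun q : XX c.X (n + 1) => (q.2.1 b, q.2.2))
        (PX c.μ Z (n + 1) (dg c.μ)) (JJ c.μ Z) := by
      intro b
      have := hx.2.2.2.1 b
      rwa [hdgp.2.2.2] at this
    have hae3 : ∀ᵐ q ∂(PX c.μ Z (n + 1) (dg c.μ)), ∀ b : Fin (n + 1),
        (q.2.1 b, q.2.2) ∈ c.Rel Z → c.MR Z (q.2.1 b, q.2.2) ≤ m1 := by
      rw [ae_all_iff]
      intro b
      have h4 := (hlaw b).quasiMeasurePreserving.ae (hdrm c Z hZ)
      filter_upwards [h4] with q h4 hq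
      rcases (h4 hq.1 hq.2.1).2 with h | h
      · exact h
      · exfalso
        have h5 : c.MR Z (q.2.1 b, q.2.2) ≤ 1 / 2 := hq.2.2
        linarith
    set N : Set (XX c.X (n + 1)) := {q | ¬ (q.1.1 = q.1.2 ∧ (q.1.2 ∈ X1 ↔ q.2.2 ∈ X1) ∧
      ∀ b : Fin (n + 1), (q.2.1 b, q.2.2) ∈ c.Rel Z → c.MR Z (q.2.1 b, q.2.2) ≤ m1)} with hN
    have hN0 : (PX c.μ Z (n + 1) (dg c.μ)).real N = 0 := by
      have : (PX c.μ Z (n + 1) (dg c.μ)) N = 0 := ae_iff.1 (hae1.and (hae2.and hae3))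
      rw [Measure.real, this]
      rfl
    have hsub : {q : XX c.X (n + 1) | q.1.1 ∈ B ∧ ∀ b, 2 * m1 < c.dL W L (q.2.1 b, q.2.2)} ⊆
        (({q | q.1.1 ∈ B \ X1} ∪ N) ∪ {q | q.2.2 ∈ X1 ∧ ∀ b, (q.2.1 b, q.2.2) ∉ c.Rel Z}) ∪
        ⋃ b ∈ (univ : Finset (Fin (n + 1))), (fun q : XX c.X (n + 1) => (q.2.1 b, q.2.2)) ⁻¹'
          {q | m1 < |c.dL W L q - c.MR Z q|} := by
      rintro q ⟨hqB, hq⟩
      by_cases hqX : q.1.1 ∈ X1
      · by_cases hqN : q ∈ N
        · exact Or.inl (Or.inl (Or.inr hqN))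
        · obtain ⟨e1, e2, e3⟩ := not_not.1 hqN
          have hx2 : q.2.2 ∈ X1 := e2.1 (e1 ▸ hqX)
          by_cases hr : ∀ b, (q.2.1 b, q.2.2) ∉ c.Rel Z
          · exact Or.inl (Or.inr ⟨hx2, hr⟩)
          · right
            obtain ⟨b, hb⟩ := not_forall.1 hr
            have hb' := not_not.1 hb
            have h1 := e3 b hb'
            have h2 := hq b
            simp only [Set.mem_iUnion]
            refine ⟨b, Finset.mem_univ _, ?_⟩
            change m1 < |c.dL W L (q.2.1 b, q.2.2) - c.MR Z (q.2.1 b, q.2.2)|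
            refine lt_of_lt_of_le ?_ (le_abs_self _)
            linarith
      · exact Or.inl (Or.inl (Or.inl ⟨hqB, hqX⟩))
    refine (measureReal_mono hsub).trans ?_
    refine (measureReal_union_le _ _).trans ?_
    refine add_le_add ?_ ?_
    · refine (measureReal_union_le _ _).trans ?_
      refine add_le_add ?_ ?_
      · refine (measureReal_union_le _ _).trans ?_
        rw [hN0, add_zero]
        exact hstart (dg c.μ) hdgp.2.1 hdgp.2.2.1
      · exact hnco c.X c.μ Z (n + 1) (c.Rel Z) X1 c₀ (Rel_meas c Z) hX1' hc0.le hc1 hmass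
    · refine (measureReal_biUnion_finset_le _ _).trans ?_
      refine (Finset.sum_le_sum (g := fun _ => θ' / m1) fun b _ => ?_).trans ?_
      · have hms : MeasurableSet {q : c.X × c.X | m1 < |c.dL W L q - c.MR Z q|} :=
          measurableSet_lt measurable_const (((dL_meas c W L).sub (MR_meas c Z)).abs)
        have h4 := (hlaw b).measureReal_preimage hms.nullMeasurableSet
        exact (le_of_eq h4).trans (mk_bd c Z W L hm1 hdM)
      · rw [Finset.sum_const, nsmul_eq_mul, Finset.card_univ, Fintype.card_fin]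
        push_cast
        exact le_rfl
  have hS1 : (PX c.μ Z (n + 1) R).real {q | q.1.1 ∈ B ∧
      ∀ b, 2 * m1 < c.dL W L (q.2.1 b, q.2.2)} ≤
      θ + (1 - c₀) ^ (n + 1) + ((n : ℝ) + 1) * (θ' / m1) + θ'' := by
    have hBm : ∀ v : Fin c.k → Fin L → Bool, MeasurableSet
        {p : XN c.X (n + 1) | p.1 ∈ B ∧ ∀ b, 2 * m1 < dw c W L (p.2 b) v} := by
      intro v
      have h1 : MeasurableSet {p : XN c.X (n + 1) | p.1 ∈ B} := measurable_fst hB'
      have h2 : ∀ b : Fin (n + 1), MeasurableSet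
          {p : XN c.X (n + 1) | 2 * m1 < dw c W L (p.2 b) v} := by
        intro b
        have : Measurable fun p : XN c.X (n + 1) => dw c W L (p.2 b) v :=
          (dw_meas c W L v).comp ((measurable_pi_apply b).comp measurable_snd)
        exact measurableSet_lt measurable_const this
      have h3 : {p : XN c.X (n + 1) | p.1 ∈ B ∧ ∀ b, 2 * m1 < dw c W L (p.2 b) v} =
          {p : XN c.X (n + 1) | p.1 ∈ B} ∩
            ⋂ b, {p : XN c.X (n + 1) | 2 * m1 < dw c W L (p.2 b) v} := by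
        ext p
        simp
      rw [h3]
      exact h1.inter (MeasurableSet.iInter h2)
    have h := hrpc c.X c.μ Z (n + 1) R (Fin c.k → Fin L → Bool) (c.wd W L)
      (fun v => {p : XN c.X (n + 1) | p.1 ∈ B ∧ ∀ b, 2 * m1 < dw c W L (p.2 b) v}) hfst
      (fun v => (wd_meas c W L) (measurableSet_singleton v)) hBm
    have hset : {q : XX c.X (n + 1) | (q.1.1, q.2.1) ∈
        {p : XN c.X (n + 1) | p.1 ∈ B ∧ ∀ b, 2 * m1 < dw c W L (p.2 b) (c.wd W L q.2.2)}} =
        {q | q.1.1 ∈ B ∧ ∀ b, 2 * m1 < c.dL W L (q.2.1 b, q.2.2)} := by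
      ext q
      simp only [Set.mem_ofPred_eq, dL_eq_dw]
    rw [hset] at h
    exact h.trans (add_le_add hS1dg hrep)
  have hsub : c.BG Z W L n B ⊆ {q | q.1.1 ∈ B ∧ ∀ b, 2 * m1 < c.dL W L (q.2.1 b, q.2.2)} ∪
      {q | q.1.1 ∈ B ∧ ∃ a b, a ≠ b ∧
      ¬ (|c.dL W L (q.2.1 a, q.2.1 b) - c.MR Z (q.2.1 a, q.2.1 b)| ≤ 1 / 100 ∧
      (c.MR Z (q.2.1 a, q.2.1 b) ≤ m1 ∨ 1 - m1 ≤ c.MR Z (q.2.1 a, q.2.1 b)))} := by
    rintro q ⟨hqB, hqG⟩
    by_contra hcon
    apply hqG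
    have h1 : ¬ (q.1.1 ∈ B ∧ ∀ b, 2 * m1 < c.dL W L (q.2.1 b, q.2.2)) := fun h => hcon (Or.inl h)
    have h2 : ¬ (q.1.1 ∈ B ∧ ∃ a b, a ≠ b ∧
      ¬ (|c.dL W L (q.2.1 a, q.2.1 b) - c.MR Z (q.2.1 a, q.2.1 b)| ≤ 1 / 100 ∧
      (c.MR Z (q.2.1 a, q.2.1 b) ≤ m1 ∨ 1 - m1 ≤ c.MR Z (q.2.1 a, q.2.1 b)))) :=
      fun h => hcon (Or.inr h)
    refine ⟨hqB, ?_, ?_⟩
    · by_contra h3
      apply h1
      refine ⟨hqB, fun b => ?_⟩
      by_contra h4
      exact h3 ⟨b, not_lt.1 h4⟩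
    · intro a b hab
      by_contra h3
      exact h2 ⟨hqB, a, b, hab, h3⟩
  refine (measureReal_mono hsub).trans ((measureReal_union_le _ _).trans ?_)
  refine (add_le_add hS1 hS2).trans (le_of_eq ?_)
  ring

end Pool.Agent.H23.AG
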