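import Pool.Agent.H40.AG.Base

/-!
ABSOLUTE GAP (`MP_c59857_nt`): row NCO, a point of `A` has a good reference with high probability.
-/

set_option autoImplicit false
set_option linter.unusedSectionVars false

open MeasureTheory ProbabilityTheory Filter Topology Finset
open scoped Nat ENNReal

namespace Pool.Agent.H23.AG

open Pool.Agent.H67.AG Pool.Agent.H40.AG

theorem pf_NCO (hJ4 : T_J4) (hJ2 : T_J2) : T_NCO := by
  intro X _ _ μ _ Z n Rel A c₀ hRel hA h0 h1 hc
  have hk := (hJ4 X μ Z).1
  have hsnd := (hJ2 X μ Z).2.2.1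
  have hc' : ∀ᵐ q ∂(JJ μ Z), q.2 ∈ A → c₀ ≤ (kap μ Z q.2).real {x' | (x', q.2) ∈ Rel} :=
    hsnd.quasiMeasurePreserving.ae hc
  have hboth : ∀ᵐ q ∂(μ ⊗ₘ kap μ Z), kap μ Z q.1 = kap μ Z q.2 ∧
      (q.2 ∈ A → c₀ ≤ (kap μ Z q.2).real {x' | (x', q.2) ∈ Rel}) := by
    have : JJ μ Z = μ ⊗ₘ kap μ Z := rfl
    rw [← this]
    exact hk.and hc'
  have hae := Measure.ae_ae_of_ae_compProd hboth
  set S' : Set ((Fin n → X) × X) := {r | r.2 ∈ A ∧ ∀ b, (r.1 b, r.2) ∉ Rel} with hS'
  have hS'm : MeasurableSet S' := by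
    have hA' : MeasurableSet {r : (Fin n → X) × X | r.2 ∈ A} := measurable_snd hA
    have hB : ∀ b, MeasurableSet {r : (Fin n → X) × X | (r.1 b, r.2) ∉ Rel} := by
      intro b
      have : Measurable fun r : (Fin n → X) × X => (r.1 b, r.2) := by fun_prop
      exact this hRel.compl
    have : S' = {r : (Fin n → X) × X | r.2 ∈ A} ∩
        ⋂ b, {r : (Fin n → X) × X | (r.1 b, r.2) ∉ Rel} := by
      ext r
      simp [hS']
    rw [this]
    exact hA'.inter (MeasurableSet.iInter hB)
  have hSm : MeasurableSet {q : XX X n | q.2.2 ∈ A ∧ ∀ b, (q.2.1 b, q.2.2) ∉ Rel} := by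
    have : Measurable fun q : XX X n => q.2 := measurable_snd
    exact this hS'm
  have hdm : Measurable fun z : X => (z, z) := by fun_prop
  have hle : PX μ Z n (dg μ) {q : XX X n | q.2.2 ∈ A ∧ ∀ b, (q.2.1 b, q.2.2) ∉ Rel} ≤
      ENNReal.ofReal ((1 - c₀) ^ n) := by
    have : IsProbabilityMeasure (dg μ) := by
      unfold dg
      exact Measure.isProbabilityMeasure_map hdm.aemeasurable
    unfold PX
    rw [Measure.compProd_apply hSm]
    have hsec : ∀ p : X × X, Prod.mk p ⁻¹'
        {q : XX X n | q.2.2 ∈ A ∧ ∀ b, (q.2.1 b, q.2.2) ∉ Rel} = S' := fun p => rfl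
    simp only [hsec]
    unfold dg
    rw [lintegral_map (Kernel.measurable_coe _ hS'm) hdm]
    have hbd : ∀ᵐ z ∂μ, (((piK (kap μ Z) n).comap Prod.fst measurable_fst) ×ₖ
        ((kap μ Z).comap Prod.snd measurable_snd)) (z, z) S' ≤ ENNReal.ofReal ((1 - c₀) ^ n) := by
      filter_upwards [hae] with z hz
      rw [Kernel.prod_apply, Kernel.comap_apply, Kernel.comap_apply]
      rw [Measure.prod_apply_symm hS'm]
      calc ∫⁻ x, piK (kap μ Z) n z ((fun v => (v, x)) ⁻¹' S') ∂(kap μ Z z)
          ≤ ∫⁻ x, ENNReal.ofReal ((1 - c₀) ^ n) ∂(kap μ Z z) := by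
            refine lintegral_mono_ae ?_
            filter_upwards [hz] with x hx
            by_cases hxA : x ∈ A
            · have hset : (fun v : Fin n → X => (v, x)) ⁻¹' S' =
                  Set.pi Set.univ fun _ : Fin n => {x' | (x', x) ∈ Rel}ᶜ := by
                ext v
                simp [hS', hxA]
              rw [hset]
              change Measure.pi (fun _ : Fin n => kap μ Z z) _ ≤ _
              rw [Measure.pi_pi, Finset.prod_const, Finset.card_univ, Fintype.card_fin,
                ENNReal.ofReal_pow (by linarith)]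
              refine pow_le_pow_left₀ bot_le ?_ n
              have hRm : MeasurableSet {x' | (x', x) ∈ Rel} := measurable_prodMk_right hRel
              have h3 := hx.2 hxA
              have h4 : kap μ Z z = kap μ Z x := hx.1
              rw [h4, ← ofReal_measureReal]
              refine ENNReal.ofReal_le_ofReal ?_
              rw [probReal_compl_eq_one_sub hRm]
              linarith
            · have hset : (fun v : Fin n → X => (v, x)) ⁻¹' S' = ∅ := by
                ext v
                simp [hS', hxA]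
              rw [hset, measure_empty]
              exact bot_le
        _ = ENNReal.ofReal ((1 - c₀) ^ n) := by
            rw [lintegral_const, measure_univ, mul_one]
    calc _ ≤ ∫⁻ z, ENNReal.ofReal ((1 - c₀) ^ n) ∂μ := lintegral_mono_ae hbd
      _ = ENNReal.ofReal ((1 - c₀) ^ n) := by rw [lintegral_const, measure_univ, mul_one]
  have hnn : 0 ≤ (1 - c₀) ^ n := pow_nonneg (by linarith) n
  rw [Measure.real]
  exact ENNReal.toReal_le_of_le_ofReal hnn hle

end Pool.Agent.H23.AG
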