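import Pool.Agent.H40.AG.Base

/-!
ABSOLUTE GAP (`MP_c59857_nt`): row PNT, the map on the references preserves the measure.
-/

set_option autoImplicit false
set_option linter.unusedSectionVars false

open MeasureTheory ProbabilityTheory Filter Topology Finset
open scoped Nat ENNReal

namespace Pool.Agent.H23.AG

open Pool.Agent.H67.AG Pool.Agent.H40.AG

theorem pf_PNT (hJ3 : T_J3) : T_PNT := by
  intro X _ _ μ _ T Z n hT hZ
  have hk := (hJ3 X μ T Z hT hZ).2
  refine ⟨(TN T n).measurable, ?_⟩
  refine Measure.ext fun S hS => ?_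
  rw [Measure.map_apply (TN T n).measurable hS]
  unfold PN
  rw [Measure.compProd_apply ((TN T n).measurable hS), Measure.compProd_apply hS]
  have hm : Measurable fun z : X => piK (kap μ Z) n z (Prod.mk z ⁻¹' S) :=
    Kernel.measurable_kernel_prodMk_left (κ := piK (kap μ Z) n) hS
  calc ∫⁻ z, piK (kap μ Z) n z (Prod.mk z ⁻¹' (⇑(TN T n) ⁻¹' S)) ∂μ
      = ∫⁻ z, piK (kap μ Z) n (T z) (Prod.mk (T z) ⁻¹' S) ∂μ := by
        refine lintegral_congr_ae ?_
        filter_upwards [hk] with z hz
        have hmp : Measurable fun v : Fin n → X => fun b => T (v b) := by fun_prop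
        have h1 : Prod.mk z ⁻¹' (⇑(TN T n) ⁻¹' S) =
            (fun v : Fin n → X => fun b => T (v b)) ⁻¹' (Prod.mk (T z) ⁻¹' S) := by
          ext v
          rfl
        have h2 : piK (kap μ Z) n (T z) =
            (piK (kap μ Z) n z).map (fun v : Fin n → X => fun b => T (v b)) := by
          change Measure.pi (fun _ : Fin n => kap μ Z (T z)) =
            (Measure.pi fun _ : Fin n => kap μ Z z).map _
          rw [Measure.pi_map_pi (fun _ => T.measurable.aemeasurable)]
          rw [hz]
        rw [h1, h2, Measure.map_apply hmp (measurable_prodMk_left hS)]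
    _ = ∫⁻ z, piK (kap μ Z) n z (Prod.mk z ⁻¹' S) ∂μ := by
        have h := lintegral_map (μ := μ) hm T.measurable
        rw [hT.map_eq] at h
        exact h.symm

end Pool.Agent.H23.AG
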