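import Pool.Agent.H40.AG.Base

/-!
ABSOLUTE GAP (`MP_c59857_nt`): row RPC, the cost of the replacement of the last point.
-/

set_option autoImplicit false
set_option linter.unusedSectionVars false

open MeasureTheory ProbabilityTheory Filter Topology Finset
open scoped Nat ENNReal

namespace Pool.Agent.H23.AG

open Pool.Agent.H67.AG Pool.Agent.H40.AG

section px

variable {X : Type} [mX : MeasurableSpace X] [StandardBorelSpace X]

theorem px_set_meas {n : ℕ} {B : Set (XN X n)} {A : Set X} (hB : MeasurableSet B)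
    (hA : MeasurableSet A) :
    MeasurableSet {q : XX X n | (q.1.1, q.2.1) ∈ B ∧ q.2.2 ∈ A} := by
  have h1 : Measurable fun q : XX X n => ((q.1.1, q.2.1) : XN X n) := by fun_prop
  have h2 : Measurable fun q : XX X n => q.2.2 := by fun_prop
  exact (h1 hB).inter (h2 hA)

theorem px_lint (μ : Measure X) [IsProbabilityMeasure μ] (Z : SA X) (n : ℕ)
    (R : Measure (X × X)) [IsProbabilityMeasure R] {B : Set (XN X n)} {A : Set X}
    (hB : MeasurableSet B) (hA : MeasurableSet A) :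
    PX μ Z n R {q : XX X n | (q.1.1, q.2.1) ∈ B ∧ q.2.2 ∈ A} =
      ∫⁻ p, piK (kap μ Z) n p.1 (Prod.mk p.1 ⁻¹' B) * kap μ Z p.2 A ∂(R) := by
  unfold PX
  rw [Measure.compProd_apply (px_set_meas hB hA)]
  refine lintegral_congr fun p => ?_
  rw [Kernel.prod_apply, Kernel.comap_apply, Kernel.comap_apply]
  have h : Prod.mk p ⁻¹' {q : XX X n | (q.1.1, q.2.1) ∈ B ∧ q.2.2 ∈ A} =
      (Prod.mk p.1 ⁻¹' B) ×ˢ A := by
    ext r
    simp [Set.mem_prod]
  rw [h, Measure.prod_prod]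

theorem aw_meas (μ : Measure X) [IsProbabilityMeasure μ] (Z : SA X) (n : ℕ)
    {B : Set (XN X n)} (hB : MeasurableSet B) :
    Measurable fun z : X => (piK (kap μ Z) n z).real (Prod.mk z ⁻¹' B) :=
  (Kernel.measurable_kernel_prodMk_left (κ := piK (kap μ Z) n) hB).ennreal_toReal

theorem kw_meas (μ : Measure X) [IsProbabilityMeasure μ] (Z : SA X) {A : Set X}
    (hA : MeasurableSet A) : Measurable fun z : X => (kap μ Z z).real A :=
  ((kap_meas μ Z hA).mono Z.2 le_rfl).ennreal_toReal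

theorem px_real (μ : Measure X) [IsProbabilityMeasure μ] (Z : SA X) (n : ℕ)
    (R : Measure (X × X)) [IsProbabilityMeasure R] {B : Set (XN X n)} {A : Set X}
    (hB : MeasurableSet B) (hA : MeasurableSet A) :
    (PX μ Z n R).real {q : XX X n | (q.1.1, q.2.1) ∈ B ∧ q.2.2 ∈ A} =
      ∫ p, (piK (kap μ Z) n p.1).real (Prod.mk p.1 ⁻¹' B) * (kap μ Z p.2).real A ∂(R) := by
  have hm : Measurable fun p : X × X =>
      (piK (kap μ Z) n p.1).real (Prod.mk p.1 ⁻¹' B) * (kap μ Z p.2).real A :=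
    ((aw_meas μ Z n hB).comp measurable_fst).mul ((kw_meas μ Z hA).comp measurable_snd)
  rw [integral_eq_lintegral_of_nonneg_ae (ae_of_all _ fun p => by positivity)
    hm.aestronglyMeasurable, Measure.real, px_lint μ Z n R hB hA]
  congr 1
  refine lintegral_congr fun p => ?_
  rw [ENNReal.ofReal_mul measureReal_nonneg, ofReal_measureReal, ofReal_measureReal]

theorem px_bdd (μ : Measure X) [IsProbabilityMeasure μ] (Z : SA X) (n : ℕ)
    (B : Set (XN X n)) (z : X) :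
    |(piK (kap μ Z) n z).real (Prod.mk z ⁻¹' B)| ≤ 1 := by
  rw [abs_of_nonneg measureReal_nonneg]
  exact measureReal_le_one

theorem kw_bdd (μ : Measure X) [IsProbabilityMeasure μ] (Z : SA X) (A : Set X) (z : X) :
    |(kap μ Z z).real A| ≤ 1 := by
  rw [abs_of_nonneg measureReal_nonneg]
  exact measureReal_le_one

theorem dg_int (μ : Measure X) [IsProbabilityMeasure μ] {f : X × X → ℝ} (hf : Measurable f) :
    ∫ p, f p ∂(dg μ) = ∫ z, f (z, z) ∂μ := by
  unfold dg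
  have h : Measurable fun z : X => (z, z) := by fun_prop
  rw [integral_map h.aemeasurable hf.aestronglyMeasurable]

instance dg_prob (μ : Measure X) [IsProbabilityMeasure μ] : IsProbabilityMeasure (dg μ) := by
  unfold dg
  have h : Measurable fun z : X => (z, z) := by fun_prop
  exact Measure.isProbabilityMeasure_map h.aemeasurable

end px

theorem pf_RPC : T_RPC := by
  intro X _ _ μ _ Z n R _ F _ Wd B hfst hWd hB
  classical
  have hsplit : ∀ (R' : Measure (X × X)) [IsProbabilityMeasure R'],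
      (PX μ Z n R').real {q | (q.1.1, q.2.1) ∈ B (Wd q.2.2)} =
      ∑ w, ∫ p, (piK (kap μ Z) n p.1).real (Prod.mk p.1 ⁻¹' (B w)) *
        (kap μ Z p.2).real (Wd ⁻¹' {w}) ∂(R') := by
    intro R' _
    have hU : {q : XX X n | (q.1.1, q.2.1) ∈ B (Wd q.2.2)} =
        ⋃ w ∈ (Finset.univ : Finset F),
          {q : XX X n | (q.1.1, q.2.1) ∈ B w ∧ q.2.2 ∈ Wd ⁻¹' {w}} := by
      ext q
      simp only [Set.mem_ofPred_eq, Set.mem_iUnion, Finset.mem_univ, Set.mem_preimage,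
        Set.mem_singleton_iff, exists_prop, true_and]
      constructor
      · intro h
        exact ⟨_, h, rfl⟩
      · rintro ⟨w, h, h2⟩
        rw [h2]
        exact h
    rw [hU, measureReal_biUnion_finset]
    · exact Finset.sum_congr rfl fun w _ => px_real μ Z n R' (hB w) (hWd w)
    · intro a _ b _ hab
      rw [Function.onFun, Set.disjoint_left]
      intro q h1 h2
      apply hab
      have e1 : Wd q.2.2 = a := h1.2
      have e2 : Wd q.2.2 = b := h2.2
      rw [← e1, ← e2]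
    · intro w _
      exact px_set_meas (hB w) (hWd w)
  rw [hsplit R, hsplit (dg μ)]
  have hm1 : ∀ w, Measurable fun p : X × X =>
      (piK (kap μ Z) n p.1).real (Prod.mk p.1 ⁻¹' (B w)) * (kap μ Z p.2).real (Wd ⁻¹' {w}) :=
    fun w => ((aw_meas μ Z n (hB w)).comp measurable_fst).mul
      ((kw_meas μ Z (hWd w)).comp measurable_snd)
  have hm2 : ∀ w, Measurable fun p : X × X =>
      (piK (kap μ Z) n p.1).real (Prod.mk p.1 ⁻¹' (B w)) * (kap μ Z p.1).real (Wd ⁻¹' {w}) :=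
    fun w => ((aw_meas μ Z n (hB w)).comp measurable_fst).mul
      ((kw_meas μ Z (hWd w)).comp measurable_fst)
  have hm3 : ∀ w, Measurable fun p : X × X =>
      |(kap μ Z p.1).real (Wd ⁻¹' {w}) - (kap μ Z p.2).real (Wd ⁻¹' {w})| := by
    intro w
    have := (((kw_meas μ Z (hWd w)).comp (measurable_fst (α := X) (β := X))).sub
      ((kw_meas μ Z (hWd w)).comp (measurable_snd (α := X) (β := X))))
    exact this.abs
  have hb1 : ∀ w (p : X × X),
      |(piK (kap μ Z) n p.1).real (Prod.mk p.1 ⁻¹' (B w)) * (kap μ Z p.2).real (Wd ⁻¹' {w})| ≤ 1 := by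
    intro w p
    rw [abs_mul]
    exact mul_le_one₀ (px_bdd μ Z n (B w) p.1) (abs_nonneg _) (kw_bdd μ Z _ p.2)
  have hb2 : ∀ w (p : X × X),
      |(piK (kap μ Z) n p.1).real (Prod.mk p.1 ⁻¹' (B w)) * (kap μ Z p.1).real (Wd ⁻¹' {w})| ≤ 1 := by
    intro w p
    rw [abs_mul]
    exact mul_le_one₀ (px_bdd μ Z n (B w) p.1) (abs_nonneg _) (kw_bdd μ Z _ p.1)
  have hb3 : ∀ w (p : X × X),
      |(|(kap μ Z p.1).real (Wd ⁻¹' {w}) - (kap μ Z p.2).real (Wd ⁻¹' {w})|)| ≤ 2 := by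
    intro w p
    rw [abs_abs]
    have h1 := kw_bdd μ Z (Wd ⁻¹' {w}) p.1
    have h2 := kw_bdd μ Z (Wd ⁻¹' {w}) p.2
    have := abs_sub ((kap μ Z p.1).real (Wd ⁻¹' {w})) ((kap μ Z p.2).real (Wd ⁻¹' {w}))
    linarith
  have hdg : ∀ w, ∫ p, (piK (kap μ Z) n p.1).real (Prod.mk p.1 ⁻¹' (B w)) *
        (kap μ Z p.2).real (Wd ⁻¹' {w}) ∂(dg μ) =
      ∫ p, (piK (kap μ Z) n p.1).real (Prod.mk p.1 ⁻¹' (B w)) *
        (kap μ Z p.1).real (Wd ⁻¹' {w}) ∂(R) := by
    intro w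
    rw [dg_int μ (hm1 w)]
    have hg : Measurable fun z : X => (piK (kap μ Z) n z).real (Prod.mk z ⁻¹' (B w)) *
        (kap μ Z z).real (Wd ⁻¹' {w}) := (aw_meas μ Z n (hB w)).mul (kw_meas μ Z (hWd w))
    have h := hfst.map_eq
    calc ∫ z, (piK (kap μ Z) n z).real (Prod.mk z ⁻¹' (B w)) *
          (kap μ Z z).real (Wd ⁻¹' {w}) ∂μ
        = ∫ z, (piK (kap μ Z) n z).real (Prod.mk z ⁻¹' (B w)) *
          (kap μ Z z).real (Wd ⁻¹' {w}) ∂(R.map Prod.fst) := by rw [h]
      _ = _ := by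
        rw [integral_map measurable_fst.aemeasurable hg.aestronglyMeasurable]
  rw [integral_finsetSum _ fun w _ => bint (hm3 w) ⟨2, hb3 w⟩, ← Finset.sum_add_distrib]
  refine Finset.sum_le_sum fun w _ => ?_
  rw [hdg w, ← integral_add (bint (hm2 w) ⟨1, hb2 w⟩) (bint (hm3 w) ⟨2, hb3 w⟩)]
  refine integral_mono (bint (hm1 w) ⟨1, hb1 w⟩)
    ((bint (hm2 w) ⟨1, hb2 w⟩).add (bint (hm3 w) ⟨2, hb3 w⟩)) fun p => ?_
  simp only
  have ha := px_bdd μ Z n (B w) p.1
  rw [abs_of_nonneg measureReal_nonneg] at ha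
  have ha0 : 0 ≤ (piK (kap μ Z) n p.1).real (Prod.mk p.1 ⁻¹' (B w)) := measureReal_nonneg
  have habs : (kap μ Z p.2).real (Wd ⁻¹' {w}) - (kap μ Z p.1).real (Wd ⁻¹' {w}) ≤
      |(kap μ Z p.1).real (Wd ⁻¹' {w}) - (kap μ Z p.2).real (Wd ⁻¹' {w})| := by
    rw [abs_sub_comm]
    exact le_abs_self _
  have habs0 := abs_nonneg ((kap μ Z p.1).real (Wd ⁻¹' {w}) - (kap μ Z p.2).real (Wd ⁻¹' {w}))
  nlinarith [mul_le_mul_of_nonneg_left habs ha0, mul_le_mul_of_nonneg_right ha habs0]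

end Pool.Agent.H23.AG
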